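import Mathlib

/-!
# Noncommutative circuits

The definitions for the theorem `Pool.Agent.Results.MP_f18ce0_lc.NoncommutativeSeparation.result`.
-/

set_option autoImplicit false

namespace Pool.Agent.H51.NCS

universe u

/-- The label of a node of an arithmetic circuit over `K` in the variables `σ` with the set of nodes
`V`: a variable, a constant, or `+` or `×` together with the tails `a false` and `a true` of the two
incoming edges. -/
inductive Gate (K : Type u) (σ V : Type) : Type u
  | var (x : σ) : Gate K σ V
  | const (c : K) : Gate K σ V
  | add (a : Bool → V) : Gate K σ V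
  | mul (a : Bool → V) : Gate K σ V

/-- `t` is the tail of the incoming edge number `j` of a node with label `g`. -/
def Tail {K : Type u} {σ V : Type} (g : Gate K σ V) (j : Bool) (t : V) : Prop :=
  ∃ a, (g = .add a ∨ g = .mul a) ∧ a j = t

/-- `Path gate s t`: there is a directed path (possibly of length zero) from `s` to `t`. -/
def Path {K : Type u} {σ V : Type} (gate : V → Gate K σ V) : V → V → Prop :=
  Relation.ReflTransGen fun s t => ∃ j, Tail (gate t) j s

/-- The noncommutative polynomial `f` (an element of the monoid algebra of the free monoid of words
in the variables) is homogeneous of degree `d`. -/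
def Homogeneous {K : Type u} [Semiring K] {σ : Type} (f : MonoidAlgebra K (FreeMonoid σ)) (d : ℕ) :
    Prop :=
  ∀ w, f.coeff w ≠ 0 → w.length = d

/-- `f` is computed by a homogeneous noncommutative circuit with `s` nodes, which is weakly skew if
`weaklySkew` is true.

The circuit is a finite acyclic graph (`rank` decreases along the edges) whose only node of
out-degree zero is `out`; all nodes compute homogeneous polynomials; at a gate `×` the value at
`a false` is the left factor. It is weakly skew if each multiplication gate `w` has an incoming edge,
number `j`, with tail `a j`, such that all edges from the sub-circuit feeding it (the nodes with a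
directed path to `a j`) to a node outside of this sub-circuit are the edge number `j` of `w`. -/
def HomComputes {K : Type u} [Semiring K] {σ : Type} (weaklySkew : Prop)
    (f : MonoidAlgebra K (FreeMonoid σ)) (s : ℕ) : Prop :=
  ∃ (V : Type) (_ : Fintype V) (gate : V → Gate K σ V) (rank : V → ℕ) (out : V)
    (val : V → MonoidAlgebra K (FreeMonoid σ)), Fintype.card V = s ∧
    (∀ w j t, Tail (gate w) j t → rank t < rank w) ∧
    (∀ t, t = out ↔ ∀ w j, ¬ Tail (gate w) j t) ∧
    (∀ w x, gate w = .var x → val w = MonoidAlgebra.single (FreeMonoid.of x) 1) ∧
    (∀ w c, gate w = .const c → val w = MonoidAlgebra.single 1 c) ∧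
    (∀ w a, gate w = .add a → val w = val (a false) + val (a true)) ∧
    (∀ w a, gate w = .mul a → val w = val (a false) * val (a true)) ∧
    (∀ w, ∃ d, Homogeneous (val w) d) ∧ val out = f ∧
    (weaklySkew → ∀ w a, gate w = .mul a → ∃ j, ∀ w' j' t, Tail (gate w') j' t →
      Path gate t (a j) → ¬ Path gate w' (a j) → w' = w ∧ j' = j)

end Pool.Agent.H51.NCS
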