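import Pool.Agent.H51.NCS.Circ

/-!
# The separation theorem in terms of the short definitions
-/

set_option autoImplicit false

namespace Pool.Agent.H51.NCS

universe u

/-- The separation theorem. -/
theorem main :
    (∃ c : ℝ, 0 < c ∧ ∃ s₀ : ℕ, ∀ (K : Type u) [Field K] (s : ℕ), s₀ ≤ s →
      ∃ (n d : ℕ) (f : MonoidAlgebra K (FreeMonoid (Fin n))), n ≤ s ∧ d ≤ s ∧ Homogeneous f d ∧
        (∃ t ≤ s, HomComputes False f t) ∧
          ∀ t, HomComputes True f t → (s : ℝ) ^ (c * Real.log s) ≤ t) ∧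
    (∃ C : ℝ, 0 < C ∧ ∀ (K : Type u) [Field K] (n d s : ℕ)
      (f : MonoidAlgebra K (FreeMonoid (Fin n))), 2 ≤ s → d ≤ s → Homogeneous f d →
        (∃ t ≤ s, HomComputes False f t) →
          ∃ t, HomComputes True f t ∧ (t : ℝ) ≤ (s : ℝ) ^ (C * Real.log s)) := by
  refine ⟨?_, ?_⟩
  · obtain ⟨c, hc, s₀, h⟩ := Pool.Agent.H81.NCH.fin_all.{u}
    refine ⟨c, hc, s₀, fun K _ s hs => ?_⟩
    obtain ⟨n, d, f, h1, h2, h3, ⟨D, h4, h5⟩, h6⟩ := h K s hs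
    refine ⟨n, d, f, h1, h2, h3, ⟨D.size, h5, (computed_iff _ _ _).2
      ⟨D, fun h => h.elim, h4, rfl⟩⟩, fun t ht => ?_⟩
    obtain ⟨D', h7, h8, rfl⟩ := (computed_iff _ _ _).1 ht
    exact h6 D' (h7 trivial) h8
  · obtain ⟨C, hC, h⟩ := Pool.Agent.H81.NCH.upv_all.{u}
    refine ⟨C, hC, fun K _ n d s f h1 h2 h3 h4 => ?_⟩
    obtain ⟨t, ht, h5⟩ := h4
    obtain ⟨D, -, h6, rfl⟩ := (computed_iff _ _ _).1 h5
    obtain ⟨D', h7, h8, h9⟩ := h K n d s f D h1 h2 h3 h6 ht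
    exact ⟨D'.size, (computed_iff _ _ _).2 ⟨D', fun _ => h7, h8, rfl⟩, h9⟩

end Pool.Agent.H51.NCS
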